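import Mathlib
import Pool.Agent.Lib.MP_26ab9b_co.Defs
import Pool.Agent.Lib.MP_26ab9b_co.Polys
import Pool.Agent.Lib.MP_26ab9b_co.Main

/-!
# MP_26ab9b_co, Q1: key expansions of stretched Schubert polynomials stabilise

Conventions: positions, values and variables are indexed from `0`.
-/

namespace Pool.Agent.Results.MP_26ab9b_co.StableKeyExpansion

open Pool.Agent.Lib.MP_26ab9b_co

/-- For every permutation `u` there are a number of terms `t`, positive integers `c j` and integer
sequences `γ j`, `δ j` with finite support, all independent of `N`, such that for all sufficiently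
large `N` the sequences `N γ j + δ j` are pairwise distinct weak compositions `α j` and
`𝔖_{u^{(N)}} = ∑ j, c j κ_{α j}`. -/
theorem result (u : FinPerm) :
    ∃ (t : ℕ) (c : Fin t → ℕ) (γ δ : Fin t → (ℕ →₀ ℤ)) (N₀ : ℕ), (∀ j, 0 < c j) ∧
      ∀ N : ℕ, N₀ ≤ N → ∃ α : Fin t → (ℕ →₀ ℕ),
        (∀ j i, (α j i : ℤ) = N * γ j i + δ j i) ∧ Function.Injective α ∧
        schubert (stretch u N) = ∑ j, c j • key (α j) :=
  stable_key_expansion u

end Pool.Agent.Results.MP_26ab9b_co.StableKeyExpansion
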